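import Mathlib

namespace Pool.Agent.Results.MP_78fb5d_an.Counter

/-- `μ` is a non-negative weak tiling measure for `E`. -/
def WeakTiling {M : ℕ} [NeZero M] (E : Finset (ZMod M)) (μ : ZMod M → ℝ) : Prop :=
  (∀ x, 0 ≤ μ x) ∧ ∀ x, ∑ y, (if x - y ∈ E then (1 : ℝ) else 0) * μ y = 1

/-- `T` is a tiling complement of `E`. -/
def Tiles {M : ℕ} (E T : Finset (ZMod M)) : Prop :=
  ∀ x, ∃! p : ZMod M × ZMod M, p.1 ∈ E ∧ p.2 ∈ T ∧ x = p.1 + p.2

/-- `μ` is a convex combination of counting measures of tiling complements of `E`. -/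
def ConvexComb {M : ℕ} (E : Finset (ZMod M)) (μ : ZMod M → ℝ) : Prop :=
  ∃ (N : ℕ) (T : Fin N → Finset (ZMod M)) (c : Fin N → ℝ), (∀ k, Tiles E (T k)) ∧
    (∀ k, 0 ≤ c k) ∧ ∑ k, c k = 1 ∧ ∀ x, μ x = ∑ k, c k * (if x ∈ T k then (1 : ℝ) else 0)

def nu (x : ZMod 24) : ℕ :=
  if x ∈ ({0, 8, 16} : Finset (ZMod 24)) then 2
  else if x ∈ ({3, 5, 7, 15, 17, 19} : Finset (ZMod 24)) then 1 else 0

def E0 : Finset (ZMod 24) := {0, 2, 6, 20}

lemma nu_sum : ∀ x : ZMod 24, ∑ y, (if x - y ∈ E0 then 1 else 0) * nu y = 2 := by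
  decide +kernel

lemma tiles0 : Tiles E0 {0, 8, 16, 1, 9, 17} := by
  have h1 : ∀ x : ZMod 24, ∃ e ∈ E0, x - e ∈ ({0, 8, 16, 1, 9, 17} : Finset (ZMod 24)) ∧
      ∀ f ∈ E0, x - f ∈ ({0, 8, 16, 1, 9, 17} : Finset (ZMod 24)) → f = e := by
    decide +kernel
  intro x
  obtain ⟨e, he, ht, hu⟩ := h1 x
  refine ⟨(e, x - e), ⟨he, ht, by simp⟩, ?_⟩
  rintro ⟨f, t⟩ ⟨hf, ht', rfl⟩
  have := hu f hf (by simpa using ht')
  subst this
  simp

lemma no_tile (T : Finset (ZMod 24)) (hT : Tiles E0 T) (hs : ∀ t ∈ T, nu t ≠ 0) : False := by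
  have ex : ∀ x a b : ZMod 24, (∀ e ∈ E0, nu (x - e) ≠ 0 → x - e = a ∨ x - e = b) →
      a ∈ T ∨ b ∈ T := by
    intro x a b h
    obtain ⟨⟨e, t⟩, ⟨he, ht, hx⟩, -⟩ := hT x
    have e1 : x - e = t := by rw [hx]; simp
    rcases h e he (e1 ▸ hs t ht) with h | h
    · exact Or.inl (h ▸ e1 ▸ ht)
    · exact Or.inr (h ▸ e1 ▸ ht)
  have un : ∀ x a b : ZMod 24, x - a ∈ E0 → x - b ∈ E0 → a ≠ b → a ∈ T → b ∈ T → False := by
    intro x a b ha hb hab h1 h2
    have := (hT x).unique (y₁ := (x - a, a)) (y₂ := (x - b, b)) ⟨ha, h1, by simp⟩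
      ⟨hb, h2, by simp⟩
    exact hab (congrArg Prod.snd this)
  have a1 := ex 3 3 7 (by decide)
  have a2 := ex 5 3 5 (by decide)
  have a3 := ex 7 5 7 (by decide)
  have b1 := un 3 3 7 (by decide) (by decide) (by decide)
  have b2 := un 5 3 5 (by decide) (by decide) (by decide)
  have b3 := un 7 5 7 (by decide) (by decide) (by decide)
  tauto

theorem result : ∃ (E : Finset (ZMod 24)) (μ : ZMod 24 → ℝ), WeakTiling E μ ∧ μ 0 = 1 ∧
    (∃ T, Tiles E T) ∧ ¬ ConvexComb E μ := by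
  refine ⟨E0, fun x => (nu x : ℝ) / 2, ⟨fun x => by positivity, fun x => ?_⟩, ?_,
    ⟨_, tiles0⟩, ?_⟩
  · have h := congrArg (fun n : ℕ => (n : ℝ) / 2) (nu_sum x)
    simp only [Nat.cast_sum, Nat.cast_mul, Nat.cast_ite, Nat.cast_one, Nat.cast_zero,
      Finset.sum_div, mul_div_assoc] at h
    rw [h]
    norm_num
  · have : nu 0 = 2 := by decide
    simp [this]
  · rintro ⟨N, T, c, hT, hc, hs, hμ⟩
    obtain ⟨k, hk⟩ : ∃ k, 0 < c k := by
      by_contra h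
      push Not at h
      have := Finset.sum_nonpos (s := Finset.univ) fun k _ => h k
      linarith
    refine no_tile (T k) (hT k) fun t ht h0 => ?_
    have h1 := hμ t
    have h2 : c k * (if t ∈ T k then (1 : ℝ) else 0) ≤
        ∑ k, c k * (if t ∈ T k then (1 : ℝ) else 0) :=
      Finset.single_le_sum (f := fun k => c k * (if t ∈ T k then (1 : ℝ) else 0))
        (fun j _ => mul_nonneg (hc j) (by split_ifs <;> norm_num)) (Finset.mem_univ k)
    simp only [h0, Nat.cast_zero, zero_div] at h1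
    rw [if_pos ht, ← h1] at h2
    linarith

end Pool.Agent.Results.MP_78fb5d_an.Counter
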